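import Pool.Agent.W_MP_d15038_co.Two
import Pool.Agent.W_MP_d15038_ex.Link

/-!
Uniformly most reliable graphs for dense pairs `(n, m)`.
With `N = n ^ 2 - 2 * n - 2 * m` (that is, `N = 2 * d - n` where `d` is the number of
missing edges) the range of the question is `1 ≤ N ≤ n - 4`.
-/

set_option autoImplicit false

namespace Pool.Agent.Results.MP_d15038_co.Answer

open scoped Classical in
/-- All-terminal reliability `R(G, p)`: each edge of `G` is kept independently with
probability `p`; the value is the probability that the resulting spanning subgraph is connected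
(the sum runs over the edge sets `S` of the connected spanning subgraphs of `G`). -/
noncomputable def reliability {n : ℕ} (G : SimpleGraph (Fin n)) (p : ℝ) : ℝ :=
  ∑ S ∈ Finset.univ.filter (fun S : Finset (Sym2 (Fin n)) =>
      (S : Set (Sym2 (Fin n))) ⊆ G.edgeSet ∧
        (SimpleGraph.fromEdgeSet (S : Set (Sym2 (Fin n)))).Connected),
    p ^ S.card * (1 - p) ^ (G.edgeSet.ncard - S.card)

/-- `G` has `m` edges and is at least as reliable as every graph on `Fin n` with `m` edges,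
for every `p ∈ [0,1]`. -/
def UniformlyMostReliable (n m : ℕ) (G : SimpleGraph (Fin n)) : Prop :=
  G.edgeSet.ncard = m ∧
    ∀ H : SimpleGraph (Fin n), H.edgeSet.ncard = m →
      ∀ p : ℝ, 0 ≤ p → p ≤ 1 → reliability H p ≤ reliability G p

lemma reliability_eq {n : ℕ} (G : SimpleGraph (Fin n)) (E : Finset (Sym2 (Fin n)))
    (hE : (E : Set (Sym2 (Fin n))) = G.edgeSet) (p : ℝ) :
    reliability G p = W_MP_d15038_co.relE E p := by
  classical
  unfold reliability W_MP_d15038_co.relE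
  rw [← hE, Set.ncard_coe_finset]
  refine Finset.sum_congr ?_ fun _ _ => rfl
  ext S
  simp only [Finset.mem_filter, Finset.mem_univ, true_and, Finset.mem_powerset,
    Finset.coe_subset]

lemma reliability_eq' {n : ℕ} (G : SimpleGraph (Fin n)) (p : ℝ) :
    reliability G p = W_MP_d15038_ex.relG G p := by
  unfold reliability W_MP_d15038_ex.relG
  refine Finset.sum_congr ?_ fun _ _ => rfl
  ext S
  simp only [Finset.mem_filter, Finset.mem_univ, true_and]

lemma nonexistence (n m : ℕ) (h1 : n ^ 2 + 4 ≤ 2 * m + 3 * n) (h2 : 2 * m + 2 * n < n ^ 2)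
    (h3 : n ^ 2 - 2 * n - 2 * m = 2 ∨ 4 ≤ n ^ 2 - 2 * n - 2 * m ∧ ¬ 3 ∣ n ^ 2 - 2 * n - 2 * m) :
    ¬ ∃ G : SimpleGraph (Fin n), UniformlyMostReliable n m G := by
  classical
  rintro ⟨G, hG, hopt⟩
  have hfinE : ((G.edgeFinset : Finset (Sym2 (Fin n))) : Set (Sym2 (Fin n))) = G.edgeSet := by
    simp
  have hcardG : G.edgeFinset.card = m := by
    rw [← hG, ← hfinE, Set.ncard_coe_finset]
  have hco : W_MP_d15038_co.IsCo G.edgeFinset Gᶜ := by
    intro x y
    rw [SimpleGraph.mem_edgeFinset, SimpleGraph.mem_edgeSet, SimpleGraph.compl_adj]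
    constructor
    · intro h
      exact ⟨h.ne, fun h' => h'.2 h⟩
    · rintro ⟨h, h'⟩
      by_contra h''
      exact h' ⟨h, h''⟩
  have htot := hco.total
  rw [Fintype.card_fin, hcardG] at htot
  have hch : n.choose 2 * 2 = n * (n - 1) := by
    rw [Nat.choose_two_right]
    exact Nat.div_mul_cancel (Nat.even_mul_pred_self n).two_dvd
  obtain ⟨k, rfl⟩ : ∃ k, n = k + 1 := ⟨n - 1, by
    rcases n with _ | n
    · simp at h2
    · omega⟩
  simp only [Nat.add_sub_cancel] at hch
  have e1 : (k + 1) ^ 2 = (k + 1) * k + (k + 1) := by ring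
  rw [e1] at h1 h2 h3
  have hopt' : ∀ E' : Finset (Sym2 (Fin (k + 1))), (∀ e ∈ E', ¬ e.IsDiag) →
      E'.card = G.edgeFinset.card → ∀ p ∈ Set.Icc (0:ℝ) 1,
      W_MP_d15038_co.relE E' p ≤ W_MP_d15038_co.relE G.edgeFinset p := by
    intro E' hE' hcE' p hp
    have hset : (E' : Set (Sym2 (Fin (k + 1))))
        = (SimpleGraph.fromEdgeSet (E' : Set (Sym2 (Fin (k + 1))))).edgeSet := by
      ext e
      rw [SimpleGraph.edgeSet_fromEdgeSet]
      constructor
      · intro h; exact ⟨h, hE' e h⟩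
      · intro h; exact h.1
    have h5 := hopt (SimpleGraph.fromEdgeSet (E' : Set (Sym2 (Fin (k + 1))))) (by
      rw [← hset, Set.ncard_coe_finset, hcE', hcardG]) p hp.1 hp.2
    rw [reliability_eq _ E' hset, reliability_eq G G.edgeFinset hfinE] at h5
    exact h5
  rcases h3 with h3 | ⟨h3, h4⟩
  · refine W_MP_d15038_co.no_umr2 hco ?_ ?_ hopt'
    · rw [Fintype.card_fin]; omega
    · rw [Fintype.card_fin]; omega
  · refine W_MP_d15038_co.no_umr hco ((k + 1) * k + (k + 1) - 2 * (k + 1) - 2 * m) h3 ?_ h4 ?_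
      hopt'
    · rw [Fintype.card_fin]; omega
    · rw [Fintype.card_fin]
      omega

lemma existence (n m : ℕ) (h1 : n ^ 2 + 4 ≤ 2 * m + 3 * n) (h2 : 2 * m + 2 * n < n ^ 2)
    (h3 : n ^ 2 - 2 * n - 2 * m = 1 ∨ 3 ∣ n ^ 2 - 2 * n - 2 * m) :
    ∃ G : SimpleGraph (Fin n), UniformlyMostReliable n m G := by
  obtain ⟨G, g1, g2⟩ := W_MP_d15038_ex.exists_umr (V := Fin n) m
    (by rw [Fintype.card_fin]; exact h1) (by rw [Fintype.card_fin]; exact h2)
    (by rw [Fintype.card_fin]; exact h3)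
  refine ⟨G, g1, fun H hH p hp0 hp1 => ?_⟩
  rw [reliability_eq', reliability_eq']
  exact g2 H hH p hp0 hp1

theorem result (n m : ℕ) (h1 : n ^ 2 + 4 ≤ 2 * m + 3 * n) (h2 : 2 * m + 2 * n < n ^ 2) :
    (∃ G : SimpleGraph (Fin n), UniformlyMostReliable n m G) ↔
      (n ^ 2 - 2 * n - 2 * m = 1 ∨ 3 ∣ n ^ 2 - 2 * n - 2 * m) := by
  constructor
  · intro h
    by_contra hcon
    push Not at hcon
    refine nonexistence n m h1 h2 ?_ h
    have h4 : n ^ 2 - 2 * n - 2 * m ≠ 3 := fun h => hcon.2 (by rw [h])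
    have h5 : n ^ 2 - 2 * n - 2 * m ≠ 0 := fun h => hcon.2 (by rw [h]; exact dvd_zero 3)
    have h6 := hcon.1
    by_cases h7 : n ^ 2 - 2 * n - 2 * m = 2
    · exact Or.inl h7
    · exact Or.inr ⟨by omega, hcon.2⟩
  · exact existence n m h1 h2

end Pool.Agent.Results.MP_d15038_co.Answer
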